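import Pool.Agent.H.MP_31abd3_an.A

set_option autoImplicit false
open MeasureTheory Real
open scoped ENNReal

namespace Pool.Agent.Results.MP_31abd3_an.No

noncomputable def polar {n : ℕ} (f : (Fin n → ℝ) → ℝ) (y : Fin n → ℝ) : ℝ :=
  ⨅ x : {x // 0 < f x}, exp (-∑ i, x.1 i * y i) / f x

noncomputable def vp {n : ℕ} (f : (Fin n → ℝ) → ℝ) : ℝ≥0∞ :=
  (∫⁻ x, ENNReal.ofReal (f x)) * ∫⁻ y, ENNReal.ofReal (polar f y)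

noncomputable def flow {n : ℕ} (f : (Fin n → ℝ) → ℝ) (t : ℝ) (x : Fin n → ℝ) : ℝ :=
  ∫ u : Fin n → ℝ, f u * ∏ i, ((√(2 * π * (1 - exp (-2 * t))))⁻¹ *
    exp (-(x i - exp (-t) * u i) ^ 2 / (2 * (1 - exp (-2 * t)))))

theorem result (n : ℕ) (hn : 0 < n) : ∃ f : (Fin n → ℝ) → ℝ, Measurable f ∧ (∀ x, 0 ≤ f x) ∧
    Integrable f ∧ 0 < ∫ x, f x ∧ Integrable (polar f) ∧ 0 < ∫ y, polar f y ∧
    (∀ i, Integrable (fun y => y i * polar f y) ∧ ∫ y, y i * polar f y = 0) ∧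
    ∃ t₁ t₂ : ℝ, 0 < t₁ ∧ t₁ < t₂ ∧ vp (flow f t₂) < vp (flow f t₁) :=
  Pool.Agent.H.MP_31abd3_an.main hn

end Pool.Agent.Results.MP_31abd3_an.No
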